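import Pool.Agent.Lib_helper24.MF.F4
import Pool.Agent.Lib_helper29.NF.SemD

/-!
# Semi-invariant multilinear forms are products of pairings (block NFD)
-/

set_option autoImplicit false
set_option linter.unusedSectionVars false
set_option linter.unusedSimpArgs false

namespace Pool.Agent.NF

open Matrix Pool.Agent.MFT Pool.Agent.OT

theorem nfd_ext {C : Type*} {κ : Type*} {D : κ → ℕ} {v w : MM C D}
    (h1 : ∀ a, (v a).1 = (w a).1) (h2 : ∀ a, (v a).2 = (w a).2) :
    v = w := funext fun a => Prod.ext (h1 a) (h2 a)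

theorem nfd_ite {X : Type*} [Zero X] {K : Type*} [DecidableEq K] (c c' x : K) (y : X) :
    (if c = x then (if c' = x then y else 0) else 0) =
      if c = c' then (if c = x then y else 0) else 0 := by
  by_cases h1 : c = x
  · by_cases h2 : c = c'
    · rw [if_pos h1, if_pos h2, if_pos h1, if_pos (h2.symm.trans h1)]
    · rw [if_pos h1, if_neg h2, if_neg (fun h => h2 (h1.trans h.symm))]
  · rw [if_neg h1]
    split_ifs <;> rfl

section nfd

variable {C : Type*} [Field C] [CharZero C] {κ : Type*} [Fintype κ] [DecidableEq κ] {D : κ → ℕ}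

/-- The skew form. -/
def nfdOm (C : Type*) [Field C] {κ : Type*} [Fintype κ] (D : κ → ℕ) :
    LinearMap.BilinForm C (MM C D) :=
  LinearMap.mk₂ C (fun v w => ∑ a, ((v a).1 ⬝ᵥ (w a).2 - (v a).2 ⬝ᵥ (w a).1))
    (fun v v' w => by
      rw [← Finset.sum_add_distrib]
      refine Finset.sum_congr rfl fun a _ => ?_
      simp only [Pi.add_apply, Prod.fst_add, Prod.snd_add, add_dotProduct]
      ring)
    (fun c v w => by
      rw [smul_eq_mul, Finset.mul_sum]
      refine Finset.sum_congr rfl fun a _ => ?_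
      simp only [Pi.smul_apply, Prod.smul_fst, Prod.smul_snd, smul_dotProduct, smul_eq_mul]
      ring)
    (fun v w w' => by
      rw [← Finset.sum_add_distrib]
      refine Finset.sum_congr rfl fun a _ => ?_
      simp only [Pi.add_apply, Prod.fst_add, Prod.snd_add, dotProduct_add]
      ring)
    (fun c v w => by
      rw [smul_eq_mul, Finset.mul_sum]
      refine Finset.sum_congr rfl fun a _ => ?_
      simp only [Pi.smul_apply, Prod.smul_fst, Prod.smul_snd, dotProduct_smul, smul_eq_mul]
      ring)

theorem nfdOm_apply (v w : MM C D) :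
    nfdOm C D v w = ∑ a, ((v a).1 ⬝ᵥ (w a).2 - (v a).2 ⬝ᵥ (w a).1) := rfl

theorem nfdOm_sk (v w : MM C D) : nfdOm C D v w = - nfdOm C D w v := by
  rw [nfdOm_apply, nfdOm_apply, ← Finset.sum_neg_distrib]
  refine Finset.sum_congr rfl fun a _ => ?_
  rw [dotProduct_comm (v a).1, dotProduct_comm (v a).2]
  ring

/-- The projections. -/
def nfdPr (C : Type*) [Field C] {κ : Type*} [DecidableEq κ] (D : κ → ℕ) (c : κ × Bool) :
    Module.End C (MM C D) where
  toFun v := fun a => (if c = (a, false) then (v a).1 else 0, if c = (a, true) then (v a).2 else 0)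
  map_add' v w := by
    refine nfd_ext (fun a => ?_) (fun a => ?_)
    · simp only [Pi.add_apply, Prod.fst_add]
      split_ifs <;> simp
    · simp only [Pi.add_apply, Prod.snd_add]
      split_ifs <;> simp
  map_smul' r v := by
    refine nfd_ext (fun a => ?_) (fun a => ?_)
    · simp only [Pi.smul_apply, Prod.smul_fst, RingHom.id_apply]
      split_ifs <;> simp
    · simp only [Pi.smul_apply, Prod.smul_snd, RingHom.id_apply]
      split_ifs <;> simp

theorem nfdPr_fst (c : κ × Bool) (v : MM C D) (a : κ) :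
    (nfdPr C D c v a).1 = if c = (a, false) then (v a).1 else 0 := rfl

theorem nfdPr_snd (c : κ × Bool) (v : MM C D) (a : κ) :
    (nfdPr C D c v a).2 = if c = (a, true) then (v a).2 else 0 := rfl

/-- The partner. -/
def nfdP (c : κ × Bool) : κ × Bool := (c.1, !c.2)

theorem nfdP_false (c : κ × Bool) (a : κ) : nfdP c = (a, false) ↔ c = (a, true) := by
  obtain ⟨b, t⟩ := c
  cases t <;> simp [nfdP]

theorem nfdP_true (c : κ × Bool) (a : κ) : nfdP c = (a, true) ↔ c = (a, false) := by
  obtain ⟨b, t⟩ := c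
  cases t <;> simp [nfdP]

theorem nfdOm_single_true (v : MM C D) (a : κ) (x : Fin (D a) → C) :
    nfdOm C D v (Pi.single a (0, x)) = (v a).1 ⬝ᵥ x := by
  rw [nfdOm_apply, Finset.sum_eq_single a]
  · rw [Pi.single_eq_same]
    simp
  · intro b _ hb
    rw [Pi.single_eq_of_ne hb]
    simp
  · intro h
    exact absurd (Finset.mem_univ _) h

theorem nfdOm_single_false (v : MM C D) (a : κ) (x : Fin (D a) → C) :
    nfdOm C D v (Pi.single a (x, 0)) = - ((v a).2 ⬝ᵥ x) := by
  rw [nfdOm_apply, Finset.sum_eq_single a]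
  · rw [Pi.single_eq_same]
    simp
  · intro b _ hb
    rw [Pi.single_eq_of_ne hb]
    simp
  · intro h
    exact absurd (Finset.mem_univ _) h

theorem nfd_dec : Dec (nfdOm C D) (nfdPr C D) nfdP where
  nd := by
    have hL : ∀ v : MM C D, (∀ w, nfdOm C D v w = 0) → v = 0 := by
      intro v hv
      refine nfd_ext (fun a => ?_) (fun a => ?_)
      · refine dotProduct_eq_zero _ fun x => ?_
        rw [← nfdOm_single_true v a x, hv]
      · refine dotProduct_eq_zero _ fun x => ?_
        have := hv (Pi.single a (x, 0))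
        rwa [nfdOm_single_false, neg_eq_zero] at this
    refine ⟨hL, ?_⟩
    intro v hv
    refine hL v fun w => ?_
    rw [nfdOm_sk, hv, neg_zero]
  alt := nfdOm_sk
  idem := by
    intro c c'
    refine LinearMap.ext fun v => ?_
    rw [Module.End.mul_apply]
    have h : ∀ X Y : Module.End C (MM C D), (if c = c' then X else Y) v
        = if c = c' then X v else Y v := by
      intro X Y; split_ifs <;> rfl
    rw [h]
    refine nfd_ext (fun a => ?_) (fun a => ?_)
    · rw [nfdPr_fst, nfdPr_fst, nfd_ite]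
      split_ifs <;> simp_all [nfdPr_fst]
    · rw [nfdPr_snd, nfdPr_snd, nfd_ite]
      split_ifs <;> simp_all [nfdPr_snd]
  sum := by
    refine LinearMap.ext fun v => ?_
    rw [LinearMap.sum_apply, Module.End.one_apply]
    refine nfd_ext (fun a => ?_) (fun a => ?_)
    · rw [Finset.sum_apply, Prod.fst_sum]
      simp only [nfdPr_fst]
      rw [Finset.sum_ite_eq', if_pos (Finset.mem_univ _)]
    · rw [Finset.sum_apply, Prod.snd_sum]
      simp only [nfdPr_snd]
      rw [Finset.sum_ite_eq', if_pos (Finset.mem_univ _)]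
  inv := by
    rintro ⟨a, b⟩
    simp [nfdP]
  adj := by
    intro c v w
    rw [nfdOm_apply, nfdOm_apply]
    simp only [nfdPr_fst, nfdPr_snd, nfdP_false, nfdP_true]
    refine Finset.sum_congr rfl fun k _ => ?_
    split_ifs <;> simp

/-- The action in the untwisted case. -/
theorem nfd_fst (N : κ → ℤ) (Y : ∀ a, Matrix (Fin (D a)) (Fin (D a)) C) (ξ : C) (v : MM C D)
    (a : κ) : (dact N Y ξ v a).1 = Y a *ᵥ (v a).1 := rfl

theorem nfd_snd (N : κ → ℤ) (Y : ∀ a, Matrix (Fin (D a)) (Fin (D a)) C) (ξ : C) (v : MM C D)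
    (a : κ) : (dact N Y ξ v a).2 = -(((N a : C) * ξ) • (v a).2) - (Y a)ᵀ *ᵥ (v a).2 := rfl

theorem nfd_comm (N : κ → ℤ) (Y : ∀ a, Matrix (Fin (D a)) (Fin (D a)) C) (ξ : C) (c : κ × Bool)
    (v : MM C D) : dact N Y ξ (nfdPr C D c v) = nfdPr C D c (dact N Y ξ v) := by
  refine nfd_ext (fun a => ?_) (fun a => ?_)
  · rw [nfd_fst, nfdPr_fst, nfdPr_fst, nfd_fst]
    split_ifs <;> simp
  · rw [nfd_snd, nfdPr_snd, nfdPr_snd, nfd_snd]
    split_ifs <;> simp

/-- Every skew endomorphism commuting with the projections comes from matrices. -/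
theorem nfd_sk (N : κ → ℤ) (y : Module.End C (MM C D)) (hy : Sk (nfdOm C D) y)
    (hc : ∀ c, y * nfdPr C D c = nfdPr C D c * y) :
    ∃ Y : ∀ a, Matrix (Fin (D a)) (Fin (D a)) C, ∀ v, y v = dact N Y 0 v := by
  have hc' : ∀ c v, y (nfdPr C D c v) = nfdPr C D c (y v) := fun c v =>
    LinearMap.congr_fun (hc c) v
  let T : ∀ a, (Fin (D a) → C) →ₗ[C] (Fin (D a) → C) := fun a =>
    (LinearMap.fst C _ _) ∘ₗ (LinearMap.proj a) ∘ₗ y ∘ₗ
      (LinearMap.single C (fun a => (Fin (D a) → C) × (Fin (D a) → C)) a) ∘ₗ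
      (LinearMap.inl C _ _)
  have hTa : ∀ a x, T a x = (y (Pi.single a (x, 0)) a).1 := fun a x => rfl
  have hY : ∀ a x, LinearMap.toMatrix' (T a) *ᵥ x = T a x := fun a x =>
    LinearMap.toMatrix'_mulVec (T a) x
  have e1 : ∀ a (v : MM C D), nfdPr C D (a, false) v = Pi.single a ((v a).1, 0) := by
    intro a v
    refine nfd_ext (fun b => ?_) (fun b => ?_)
    · rw [nfdPr_fst]
      rcases eq_or_ne b a with rfl | hb
      · rw [if_pos rfl, Pi.single_eq_same]
      · rw [if_neg (by simpa using Ne.symm hb), Pi.single_eq_of_ne hb]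
        rfl
    · rw [nfdPr_snd, if_neg (by simp)]
      rcases eq_or_ne b a with rfl | hb
      · rw [Pi.single_eq_same]
      · rw [Pi.single_eq_of_ne hb]
        rfl
  have h1 : ∀ (v : MM C D) a, (y v a).1 = T a (v a).1 := by
    intro v a
    rw [hTa, ← e1, hc', nfdPr_fst, if_pos rfl]
  refine ⟨fun a => LinearMap.toMatrix' (T a), fun v => ?_⟩
  refine nfd_ext (fun a => ?_) (fun a => ?_)
  · rw [nfd_fst, hY, h1]
  · rw [nfd_snd, mul_zero, zero_smul, neg_zero, zero_sub]
    apply dotProduct_eq
    intro x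
    have h2 := hy v (Pi.single a (x, 0))
    rw [nfdOm_single_false] at h2
    have h3 : y (Pi.single a (x, 0)) = Pi.single a (T a x, 0) := by
      have h4 : (Pi.single a (x, 0) : MM C D) = nfdPr C D (a, false) (Pi.single a (x, 0)) := by
        rw [e1, Pi.single_eq_same]
      rw [h4, hc', e1, ← hTa]
    rw [h3, nfdOm_single_false, neg_neg] at h2
    rw [neg_dotProduct, mulVec_transpose, ← dotProduct_mulVec, hY, ← h2, neg_neg]

/-- Products of pairings. -/
theorem nfd_pairs {m : ℕ} {F : (Fin m → MM C D) → C}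
    (hF : F ∈ SM (nfdOm C D) (nfdPr C D) (Finset.univ : Finset (Fin m))) : F ∈ Pairs C D m := by
  have hle : SM (nfdOm C D) (nfdPr C D) (Finset.univ : Finset (Fin m)) ≤ Pairs C D m := by
    unfold SM
    rw [Submodule.span_le]
    intro G hG
    have hG' : PairM (nfdOm C D) (nfdPr C D) Finset.univ G := hG
    obtain ⟨q, l, r, c, hinj, hmem, rfl⟩ := hG'.explicit
    have h1 : ∀ (c : κ × Bool) (v w : MM C D), nfdOm C D (nfdPr C D c v) w =
        if c.2 then - pairing c.1 w v else pairing c.1 v w := by
      rintro ⟨a, b⟩ v w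
      rw [nfdOm_apply, Finset.sum_eq_single a]
      · cases b
        · simp [nfdPr_fst, nfdPr_snd, pairing]
        · simp only [nfdPr_fst, nfdPr_snd, pairing, if_true]
          rw [if_neg (by simp), zero_dotProduct, zero_sub, dotProduct_comm]
      · intro a' _ ha'
        rw [nfdPr_fst, nfdPr_snd, if_neg (by simp [Ne.symm ha']), if_neg (by simp [Ne.symm ha'])]
        simp
      · intro h
        exact absurd (Finset.mem_univ _) h
    let l' : Fin q → Fin m := fun t => if (c t).2 then r t else l t
    let r' : Fin q → Fin m := fun t => if (c t).2 then l t else r t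
    have hlr : ∀ t, (l' t = l t ∧ r' t = r t) ∨ (l' t = r t ∧ r' t = l t) := by
      intro t
      by_cases h : (c t).2 = true
      · right
        simp [l', r', h]
      · left
        simp [l', r', h]
    have hbij : Function.Bijective (Sum.elim l' r') := by
      have hl : ∀ t t', l t = l t' → t = t' := fun t t' h => by
        have := @hinj (Sum.inl t) (Sum.inl t') h
        simpa using this
      have hr : ∀ t t', r t = r t' → t = t' := fun t t' h => by
        have := @hinj (Sum.inr t) (Sum.inr t') h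
        simpa using this
      have hl' : ∀ t t', l t ≠ r t' := fun t t' h => by
        have := @hinj (Sum.inl t) (Sum.inr t') h
        simp at this
      constructor
      · rintro (t | t) (t' | t') h
        · simp only [Sum.elim_inl] at h
          rcases hlr t with ⟨e1, e2⟩ | ⟨e1, e2⟩ <;> rcases hlr t' with ⟨e3, e4⟩ | ⟨e3, e4⟩ <;>
            rw [e1, e3] at h
          · rw [hl _ _ h]
          · exact absurd h (hl' _ _)
          · exact absurd h.symm (hl' _ _)
          · rw [hr _ _ h]
        · simp only [Sum.elim_inl, Sum.elim_inr] at h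
          exfalso
          rcases hlr t with ⟨e1, e2⟩ | ⟨e1, e2⟩ <;> rcases hlr t' with ⟨e3, e4⟩ | ⟨e3, e4⟩ <;>
            rw [e1, e4] at h
          · exact hl' _ _ h
          · have := hl _ _ h
            subst this
            rw [e1] at e3
            exact hl' _ _ e3
          · have := hr _ _ h
            subst this
            rw [e1] at e3
            exact hl' _ _ e3.symm
          · exact hl' _ _ h.symm
        · simp only [Sum.elim_inl, Sum.elim_inr] at h
          exfalso
          rcases hlr t with ⟨e1, e2⟩ | ⟨e1, e2⟩ <;> rcases hlr t' with ⟨e3, e4⟩ | ⟨e3, e4⟩ <;>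
            rw [e2, e3] at h
          · exact hl' _ _ h.symm
          · have := hr _ _ h
            subst this
            rw [e1] at e3
            exact hl' _ _ e3
          · have := hl _ _ h
            subst this
            rw [e1] at e3
            exact hl' _ _ e3.symm
          · exact hl' _ _ h
        · simp only [Sum.elim_inr] at h
          rcases hlr t with ⟨e1, e2⟩ | ⟨e1, e2⟩ <;> rcases hlr t' with ⟨e3, e4⟩ | ⟨e3, e4⟩ <;>
            rw [e2, e4] at h
          · rw [hr _ _ h]
          · exact absurd h.symm (hl' _ _)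
          · exact absurd h (hl' _ _)
          · rw [hl _ _ h]
      · intro x
        obtain ⟨s, hs⟩ := (hmem x).1 (Finset.mem_univ x)
        rcases s with t | t
        · simp only [Sum.elim_inl] at hs
          rcases hlr t with ⟨e1, e2⟩ | ⟨e1, e2⟩
          · exact ⟨Sum.inl t, by simp [e1, hs]⟩
          · exact ⟨Sum.inr t, by simp [e2, hs]⟩
        · simp only [Sum.elim_inr] at hs
          rcases hlr t with ⟨e1, e2⟩ | ⟨e1, e2⟩
          · exact ⟨Sum.inr t, by simp [e2, hs]⟩
          · exact ⟨Sum.inl t, by simp [e1, hs]⟩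
    have h2 : (fun v : Fin m → MM C D => ∏ t, nfdOm C D (nfdPr C D (c t) (v (l t))) (v (r t))) =
        (∏ t, (if (c t).2 then (-1 : C) else 1)) • fun v : Fin m → MM C D =>
          ∏ t, pairing (c t).1 (v (l' t)) (v (r' t)) := by
      funext v
      rw [Pi.smul_apply, smul_eq_mul, ← Finset.prod_mul_distrib]
      refine Finset.prod_congr rfl fun t _ => ?_
      rw [h1]
      by_cases h : (c t).2 = true
      · simp [l', r', h]
      · simp [l', r', h]
    rw [h2]
    refine Submodule.smul_mem _ _ (Submodule.subset_span ⟨q, Equiv.ofBijective _ hbij,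
      fun t => (c t).1, ?_⟩)
    rfl
  exact hle hF

theorem nfd_add (N : κ → ℤ) (Y Y' : ∀ a, Matrix (Fin (D a)) (Fin (D a)) C) (ξ ξ' : C)
    (v : MM C D) :
    dact N (fun a => Y a + Y' a) (ξ + ξ') v = dact N Y ξ v + dact N Y' ξ' v := by
  refine nfd_ext (fun a => ?_) (fun a => ?_)
  · rw [Pi.add_apply, Prod.fst_add, nfd_fst, nfd_fst, nfd_fst, add_mulVec]
  · rw [Pi.add_apply, Prod.snd_add, nfd_snd, nfd_snd, nfd_snd, transpose_add, add_mulVec, mul_add,
      add_smul]
    abel

theorem nfd_scal (N : κ → ℤ) (t : κ → C) (ξ : C) (c : κ × Bool) (v : MM C D) :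
    nfdPr C D c (dact N (fun a => t a • (1 : Matrix (Fin (D a)) (Fin (D a)) C)) ξ v) =
      (if c.2 then -((N c.1 : C) * ξ + t c.1) else t c.1) • nfdPr C D c v := by
  obtain ⟨b, e⟩ := c
  refine nfd_ext (fun a => ?_) (fun a => ?_)
  · rw [Pi.smul_apply, Prod.smul_fst, nfdPr_fst, nfdPr_fst, nfd_fst]
    by_cases h : ((b, e) : κ × Bool) = (a, false)
    · rw [if_pos h, if_pos h]
      obtain ⟨h1, h2⟩ := Prod.ext_iff.1 h
      simp only at h1 h2
      subst h1 h2
      simp [smul_mulVec]
    · rw [if_neg h, if_neg h, smul_zero]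
  · rw [Pi.smul_apply, Prod.smul_snd, nfdPr_snd, nfdPr_snd, nfd_snd]
    by_cases h : ((b, e) : κ × Bool) = (a, true)
    · rw [if_pos h, if_pos h]
      obtain ⟨h1, h2⟩ := Prod.ext_iff.1 h
      simp only at h1 h2
      subst h1 h2
      simp only [if_true, transpose_smul, transpose_one, smul_mulVec, one_mulVec, neg_smul,
        add_smul]
      abel
    · rw [if_neg h, if_neg h, smul_zero]

end nfd

/-- BLOCK NFD. -/
theorem semi_pairings_pr {C : Type*} [Field C] [CharZero C] {κ : Type*} [Fintype κ]
    [DecidableEq κ]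
    {D : κ → ℕ} (hD : ∀ a, 0 < D a) (N : κ → ℤ)
    (L : Submodule C ((∀ a, Matrix (Fin (D a)) (Fin (D a)) C) × C))
    (hsl : ∀ z : ∀ a, Matrix (Fin (D a)) (Fin (D a)) C, (∀ a, (z a).trace = 0) → (z, 0) ∈ L)
    (hind : ∀ (t : κ → ℤ) (t' : ℤ), (∀ x ∈ L, ∑ a, (t a : C) * (x.1 a).trace = t' * x.2) →
      ∀ a, t a = 0)
    (m : ℕ) (c : ℤ) (f : MultilinearMap C (fun _ : Fin m => MM C D) C)
    (hf : ∀ x ∈ L, ∀ v : Fin m → MM C D,
      ∑ i, f (Function.update v i (dact N x.1 x.2 (v i))) = (c * x.2) * f v) :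
    (fun v => f v) ∈ Pairs C D m := by
  classical
  let g : (Fin m → κ × Bool) → MultilinearMap C (fun _ : Fin m => MM C D) C :=
    fun θ => f.compLinearMap (fun i => nfdPr C D (θ i))
  have ga : ∀ θ v, g θ v = f (fun i => nfdPr C D (θ i) (v i)) := fun θ v => rfl
  have hsum : (fun v => f v) = ∑ θ : Fin m → κ × Bool, (fun v : Fin m → MM C D => g θ v) := by
    funext v
    rw [Finset.sum_apply]
    have h1 : (fun i => ∑ b, nfdPr C D b (v i)) = v := by
      funext i
      exact (nfd_dec (C := C) (D := D)).sum_apply (v i)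
    conv_lhs => rw [← h1]
    rw [MultilinearMap.map_sum]
    rfl
  rw [hsum]
  refine Submodule.sum_mem _ fun θ _ => ?_
  by_cases h0 : ∀ v, g θ v = 0
  · have : (fun v : Fin m → MM C D => g θ v) = 0 := funext h0
    rw [this]
    exact Submodule.zero_mem _
  push Not at h0
  obtain ⟨v0, hv0⟩ := h0
  let Dop : (∀ a, Matrix (Fin (D a)) (Fin (D a)) C) → C → (Fin m → MM C D) → C :=
    fun Y ξ v => ∑ i, g θ (Function.update v i (dact N Y ξ (v i)))
  have hDop : ∀ Y ξ v, Dop Y ξ v = ∑ i, g θ (Function.update v i (dact N Y ξ (v i))) :=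
    fun _ _ _ => rfl
  have hadd : ∀ Y Y' ξ ξ' v, Dop (fun a => Y a + Y' a) (ξ + ξ') v = Dop Y ξ v + Dop Y' ξ' v := by
    intro Y Y' ξ ξ' v
    rw [hDop, hDop, hDop, ← Finset.sum_add_distrib]
    refine Finset.sum_congr rfl fun i _ => ?_
    rw [nfd_add, (g θ).map_update_add]
  have hL : ∀ x ∈ L, ∀ v, Dop x.1 x.2 v = (c * x.2) * g θ v := by
    intro x hx v
    rw [hDop, ga, ← hf x hx]
    refine Finset.sum_congr rfl fun i _ => ?_
    rw [ga]
    congr 1
    funext j
    by_cases hj : j = i
    · subst hj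
      rw [Function.update_self, Function.update_self, nfd_comm]
    · rw [Function.update_of_ne hj, Function.update_of_ne hj]
  let n : κ → ℤ := fun a => ∑ i, if (θ i).1 = a then (if (θ i).2 then -1 else 1) else 0
  let J : ℤ := ∑ i, if (θ i).2 then N (θ i).1 else 0
  have hscal : ∀ (t : κ → C) (ξ : C) v, Dop (fun a => t a • 1) ξ v =
      (∑ a, (n a : C) * t a - (J : C) * ξ) * g θ v := by
    intro t ξ v
    have h1 : ∀ i, g θ (Function.update v i (dact N (fun a => t a • 1) ξ (v i))) =
        (if (θ i).2 then -((N (θ i).1 : C) * ξ + t (θ i).1) else t (θ i).1) * g θ v := by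
      intro i
      rw [ga, ga]
      have h2 : (fun j => nfdPr C D (θ j) (Function.update v i
          (dact N (fun a => t a • (1 : Matrix (Fin (D a)) (Fin (D a)) C)) ξ (v i)) j)) =
          Function.update (fun j => nfdPr C D (θ j) (v j)) i
            ((if (θ i).2 then -((N (θ i).1 : C) * ξ + t (θ i).1) else t (θ i).1) •
              nfdPr C D (θ i) (v i)) := by
        funext j
        by_cases hj : j = i
        · subst hj
          rw [Function.update_self, Function.update_self, nfd_scal]
        · rw [Function.update_of_ne hj, Function.update_of_ne hj]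
      rw [h2, f.map_update_smul, smul_eq_mul]
      congr 2
      exact Function.update_eq_self i _
    rw [hDop, Finset.sum_congr rfl fun i _ => h1 i, ← Finset.sum_mul]
    congr 1
    have h3 : ∑ a, (n a : C) * t a = ∑ i, (if (θ i).2 then -1 else 1) * t (θ i).1 := by
      have : ∀ a, (n a : C) * t a =
          ∑ i, if (θ i).1 = a then (if (θ i).2 then -1 else 1) * t a else 0 := by
        intro a
        simp only [n]
        push_cast
        rw [Finset.sum_mul]
        refine Finset.sum_congr rfl fun i _ => ?_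
        split_ifs <;> simp
      rw [Finset.sum_congr rfl fun a _ => this a, Finset.sum_comm]
      refine Finset.sum_congr rfl fun i _ => ?_
      rw [Finset.sum_ite_eq, if_pos (Finset.mem_univ _)]
    have h4 : (J : C) * ξ = ∑ i, (if (θ i).2 then (N (θ i).1 : C) * ξ else 0) := by
      simp only [J]
      push_cast
      rw [Finset.sum_mul]
      refine Finset.sum_congr rfl fun i _ => ?_
      split_ifs <;> simp
    rw [h3, h4, ← Finset.sum_sub_distrib]
    refine Finset.sum_congr rfl fun i _ => ?_
    split_ifs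
    · ring
    · ring
  have hDC : ∀ a, (D a : C) ≠ 0 := fun a => Nat.cast_ne_zero.2 (hD a).ne'
  -- the general element
  have hgen : ∀ (Y : ∀ a, Matrix (Fin (D a)) (Fin (D a)) C) (ξ : C) v, Dop Y ξ v =
      (∑ a, (n a : C) * ((Y a).trace / D a) - (J : C) * ξ) * g θ v := by
    intro Y ξ v
    let Y0 : ∀ a, Matrix (Fin (D a)) (Fin (D a)) C := fun a => Y a - ((Y a).trace / D a) • 1
    have h1 : Y = fun a => Y0 a + ((Y a).trace / D a) • 1 := by
      funext a
      simp only [Y0]
      abel
    have h2 : ∀ a, (Y0 a).trace = 0 := by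
      intro a
      simp only [Y0]
      rw [trace_sub, trace_smul, trace_one, Fintype.card_fin, smul_eq_mul,
        div_mul_cancel₀ _ (hDC a), sub_self]
    have h3 : Dop Y0 0 v = 0 := by
      rw [hL _ (hsl Y0 h2) v]
      simp
    have h4 := hadd Y0 (fun a => ((Y a).trace / D a) • 1) 0 ξ v
    rw [zero_add, ← h1, h3, zero_add] at h4
    rw [h4, hscal]
  have hn : ∀ a, n a = 0 := by
    have h1 := hind (fun a => n a * ∏ b ∈ Finset.univ.erase a, (D b : ℤ))
      ((∏ b, (D b : ℤ)) * (c + J)) (by
        intro x hx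
        have h2 := hL x hx v0
        rw [hgen] at h2
        have h3 := mul_right_cancel₀ hv0 h2
        have h4 : ∑ a, (n a : C) * ((x.1 a).trace / D a) = (c + J) * x.2 := by
          linear_combination h3
        have h5 : ∀ a, ((n a * ∏ b ∈ Finset.univ.erase a, (D b : ℤ) : ℤ) : C) * (x.1 a).trace =
            (∏ b, (D b : C)) * ((n a : C) * ((x.1 a).trace / D a)) := by
          intro a
          rw [← Finset.mul_prod_erase _ _ (Finset.mem_univ a)]
          push_cast
          field_simp [hDC a]
        rw [Finset.sum_congr rfl fun a _ => h5 a, ← Finset.mul_sum, h4]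
        push_cast
        ring)
    intro a
    rcases mul_eq_zero.1 (h1 a) with h3 | h3
    · exact h3
    · exfalso
      rw [Finset.prod_eq_zero_iff] at h3
      obtain ⟨b, -, hb⟩ := h3
      have := hD b
      omega
  apply nfd_pairs
  refine mfft (nfd_dec (C := C) (D := D)) _ Finset.univ rfl _ ⟨?_, ?_, ?_⟩ ?_
  · intro a _ v x y
    exact (g θ).map_update_add v a x y
  · intro a _ v r x
    rw [(g θ).map_update_smul, smul_eq_mul]
  · intro a ha
    exact absurd (Finset.mem_univ a) ha
  · intro y hy hyc v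
    obtain ⟨Y, hY⟩ := nfd_sk N y hy hyc
    have h1 : ∑ a, g θ (Function.update v a (y (v a))) = Dop Y 0 v := by
      rw [hDop]
      refine Finset.sum_congr rfl fun i _ => ?_
      rw [hY]
    rw [h1, hgen]
    simp [hn]

end Pool.Agent.NF
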