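import Pool.Agent.Lib_helper29.NF.Semi
import Pool.Agent.Lib_helper9.NF.NFD4

/-!
# Norm forms, all powers: semi-invariant multilinear forms are generated by pairings: the relations
between the determinants for each component, and for forms of one type
-/

set_option autoImplicit false
set_option linter.unusedSectionVars false

namespace Pool.Agent.NF

open Filter Topology Matrix Pool.Agent.TBL

section

variable {k : Type*} [NontriviallyNormedField k] [IsUltrametricDist k] [CompleteSpace k]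
  {κ : Type*} {D : κ → ℕ} {G : Type*} [Group G]

attribute [local instance] matRing matAlg matUltra matComplete

/-- **Semi-invariant multilinear forms are linear combinations of products of pairings.** Only the
relations between the determinants which belong to a nonzero component of `f` matter. -/
theorem semi_main_g [CharZero k] [Fintype κ] [DecidableEq κ] (hD : ∀ a, 0 < D a)
    [TopologicalSpace G] [IsTopologicalGroup G] [CompactSpace G] [TotallyDisconnectedSpace G]
    (ρ : ∀ a, G →* Matrix (Fin (D a)) (Fin (D a)) k) (χ : G →* k) {p : ℕ}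
    (hp0 : (p : k) ≠ 0) (hp : ‖(p : k)‖ < 1) (hρ : ∀ a, Continuous (ρ a)) (hχ : Continuous χ)
    (hb : Big p ρ) (m : ℕ) (N : κ → ℤ) (c : ℤ)
    (f : MultilinearMap k (fun _ : Fin m => MM k D) k)
    (hind : ∀ H : Subgroup G, IsOpen (H : Set G) → ∀ θ : Fin m → κ × Bool,
      (∃ v : Fin m → MM k D, f (fun i => nfdPr k D (θ i) (v i)) ≠ 0) →
      ∀ t : κ → ℤ,
      (∀ a, (∑ i, if (θ i).1 = a then (if (θ i).2 then -1 else 1) else 0 : ℤ) = D a * t a) →
      (∀ h ∈ H, ∏ a, (ρ a h).det ^ t a = χ h ^ (c + ∑ i, (if (θ i).2 then N (θ i).1 else 0))) →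
      ∀ a, t a = 0)
    (H : Subgroup G) (hH : IsOpen (H : Set G))
    (hf : ∀ h ∈ H, ∀ v : Fin m → MM k D,
      f (fun i => gact N (fun a => ρ a h) (fun a => ρ a h⁻¹) (χ h) (v i)) = χ h ^ c * f v) :
    (fun v => f v) ∈ Pairs k D m := by
  have hq : 0 < ‖(p : k)‖ ^ 2 := by
    have : 0 < ‖(p : k)‖ := norm_pos_iff.2 hp0
    positivity
  have hU : {g : G | Small ρ χ p g ∧ ∀ a, ‖(ρ a g).det - 1‖ ≤ ‖(p : k)‖ ^ 2} ∈ 𝓝 (1 : G) := by
    have h1 : ∀ a, {g : G | ‖ρ a g - 1‖ ≤ ‖(p : k)‖ ^ 2} ∈ 𝓝 (1 : G) := by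
      intro a
      have hc : Continuous fun g => ‖ρ a g - 1‖ := ((hρ a).sub continuous_const).norm
      have h2 : {g : G | ‖ρ a g - 1‖ < ‖(p : k)‖ ^ 2} ∈ 𝓝 (1 : G) := by
        apply (isOpen_lt hc continuous_const).mem_nhds
        show ‖ρ a 1 - 1‖ < _
        rw [map_one, sub_self, norm_zero]; exact hq
      filter_upwards [h2] with g hg using hg.le
    have h3 : ∀ a, {g : G | ‖(ρ a g).det - 1‖ ≤ ‖(p : k)‖ ^ 2} ∈ 𝓝 (1 : G) := by
      intro a
      have hc : Continuous fun g => ‖(ρ a g).det - 1‖ :=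
        ((hρ a).matrix_det.sub continuous_const).norm
      have h2 : {g : G | ‖(ρ a g).det - 1‖ < ‖(p : k)‖ ^ 2} ∈ 𝓝 (1 : G) := by
        apply (isOpen_lt hc continuous_const).mem_nhds
        show ‖(ρ a 1).det - 1‖ < _
        rw [map_one, Matrix.det_one, sub_self, norm_zero]; exact hq
      filter_upwards [h2] with g hg using hg.le
    have h4 : {g : G | ‖χ g - 1‖ ≤ ‖(p : k)‖ ^ 2} ∈ 𝓝 (1 : G) := by
      have hc : Continuous fun g => ‖χ g - 1‖ := (hχ.sub continuous_const).norm
      have h2 : {g : G | ‖χ g - 1‖ < ‖(p : k)‖ ^ 2} ∈ 𝓝 (1 : G) := by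
        apply (isOpen_lt hc continuous_const).mem_nhds
        show ‖χ 1 - 1‖ < _
        rw [map_one, sub_self, norm_zero]; exact hq
      filter_upwards [h2] with g hg using hg.le
    filter_upwards [eventually_all.mpr h1, eventually_all.mpr h3, h4] with g hg1 hg2 hg3 using
      ⟨⟨hg1, hg3⟩, hg2⟩
  obtain ⟨H', -, hHo, hHH, hHs⟩ := exists_open_normal H hH hU
  refine semi_pairings_g hD N (LS ρ χ p H') (fun z hz => hb.LS hp0 hp hρ hχ H' hHo z hz) m c f ?_ ?_
  · -- independence of the determinants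
    intro θ hθ t htd ht
    refine hind H' hHo θ hθ t htd fun h hh => ?_
    generalize c + ∑ i, (if (θ i).2 then N (θ i).1 else 0) = t' at ht ⊢
    obtain ⟨hs, hd⟩ := hHs h hh
    have h1 := ht _ (lgs_mem ρ χ p H' hh hs)
    have h2 : ∀ a ∈ Finset.univ, ‖(ρ a h).det ^ t a - 1‖ ≤ ‖(p : k)‖ ^ 2 :=
      fun a _ => small_zpow hp (hd a) (t a)
    have h3 : lg k p (∏ a, (ρ a h).det ^ t a) = lg k p (χ h ^ t') := by
      rw [lg_prod hp0 hp Finset.univ _ h2, lg_zpow hp0 hp hs.2]
      have h4 : ∀ a ∈ Finset.univ, lg k p ((ρ a h).det ^ t a) =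
          (t a : k) * (lg k p (ρ a h)).trace := by
        intro a _
        rw [lg_zpow hp0 hp (hd a), lg_det hp0 hp (hs.1 a) (hd a)]
      rw [Finset.sum_congr rfl h4]
      exact h1
    have h5 := small_prod hp Finset.univ _ h2
    have h6 := small_zpow hp hs.2 t'
    have h7 := small_inv hp h6
    have h8 : lg k p ((∏ a, (ρ a h).det ^ t a) * (χ h ^ t')⁻¹) = 0 := by
      rw [lg_mul hp0 hp (Commute.all _ _) h5 h7, lg_inv hp0 hp h6, h3, add_neg_cancel]
    have h9 := eq_one_of_lg hp0 hp (small_mul (norm_sq_le_one hp) h5 h7) h8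
    have h10 : χ h ^ t' ≠ 0 := by
      intro h0
      have := small_norm hp h6
      rw [h0, norm_zero] at this
      exact zero_ne_one this
    field_simp at h9
    exact h9
  · -- the derivation
    intro x hx v
    have hlin : ∀ x y : PA k D, ∀ v, dact N (x + y).1 (x + y).2 v =
        dact N x.1 x.2 v + dact N y.1 y.2 v := by
      intro x y v
      funext a
      rw [Pi.add_apply, dact_apply, dact_apply, dact_apply]
      refine Prod.ext ?_ ?_
      · show (x.1 a + y.1 a).mulVec (v a).1 = (x.1 a).mulVec (v a).1 + (y.1 a).mulVec (v a).1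
        rw [Matrix.add_mulVec]
      · show -(((N a : k) * (x.2 + y.2)) • (v a).2) - (x.1 a + y.1 a)ᵀ.mulVec (v a).2 =
          (-(((N a : k) * x.2) • (v a).2) - (x.1 a)ᵀ.mulVec (v a).2) +
          (-(((N a : k) * y.2) • (v a).2) - (y.1 a)ᵀ.mulVec (v a).2)
        rw [Matrix.transpose_add, Matrix.add_mulVec, mul_add, add_smul]
        abel
    have hsm : ∀ (r : k) (x : PA k D), ∀ v, dact N (r • x).1 (r • x).2 v =
        r • dact N x.1 x.2 v := by
      intro r x v
      funext a
      rw [Pi.smul_apply, dact_apply, dact_apply]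
      refine Prod.ext ?_ ?_
      · show (r • x.1 a).mulVec (v a).1 = r • (x.1 a).mulVec (v a).1
        rw [Matrix.smul_mulVec]
      · show -(((N a : k) * (r * x.2)) • (v a).2) - (r • x.1 a)ᵀ.mulVec (v a).2 =
          r • (-(((N a : k) * x.2) • (v a).2) - (x.1 a)ᵀ.mulVec (v a).2)
        rw [Matrix.transpose_smul, Matrix.smul_mulVec, smul_sub, smul_neg, smul_smul]
        congr 3
        ring
    induction hx using Submodule.span_induction with
    | mem x hx =>
      obtain ⟨h, hh, hs, rfl⟩ := hx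
      have hs' := (hHs _ (H'.inv_mem hh)).1
      have h1 := mm_deriv f v (fun n i => gact N (fun a => ρ a (h ^ p ^ n))
        (fun a => ρ a (h ^ p ^ n)⁻¹) (χ (h ^ p ^ n)) (v i)) (fun n => ((p : k) ^ n)⁻¹)
        (fun i => dact N (fun a => lg k p (ρ a h)) (lg k p (χ h)) (v i))
        (fun i => (tendsto_gact ρ χ hp0 hp N hs hs' (v i)).1)
        (fun i => (tendsto_gact ρ χ hp0 hp N hs hs' (v i)).2)
      have h2 : Tendsto (fun n => dq k p (χ h ^ c) n * f v) atTop
          (𝓝 (lg k p (χ h ^ c) * f v)) :=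
        (tendsto_dq (k := k) hp0 hp (small_zpow hp hs.2 c)).mul_const _
      rw [lg_zpow hp0 hp hs.2] at h2
      refine tendsto_nhds_unique h1 (h2.congr fun n => ?_)
      have h3 := hf (h ^ p ^ n) (H'.pow_mem hh _ |> fun h' => hHH h') v
      show dq k p (χ h ^ c) n * f v = ((p : k) ^ n)⁻¹ * (f (fun i => gact N
        (fun a => ρ a (h ^ p ^ n)) (fun a => ρ a (h ^ p ^ n)⁻¹) (χ (h ^ p ^ n)) (v i)) - f v)
      rw [h3, dq, smul_eq_mul, map_pow]
      have h4 : (χ h ^ p ^ n) ^ c = (χ h ^ c) ^ p ^ n := by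
        rw [← zpow_natCast, ← zpow_natCast, ← _root_.zpow_mul, ← _root_.zpow_mul, mul_comm]
      rw [h4]
      ring
    | zero =>
      have h1 : ∀ i, dact N (0 : PA k D).1 (0 : PA k D).2 (v i) = 0 := by
        intro i
        have := hsm 0 0 (v i)
        rwa [zero_smul, zero_smul] at this
      have h2 : ∀ i, f (Function.update v i (dact N (0 : PA k D).1 (0 : PA k D).2 (v i))) = 0 := by
        intro i
        rw [h1]
        exact f.map_update_zero v i
      rw [Finset.sum_congr rfl fun i _ => h2 i]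
      simp
    | add x y _ _ hx hy =>
      have h2 : ∀ i, f (Function.update v i (dact N (x + y).1 (x + y).2 (v i))) =
          f (Function.update v i (dact N x.1 x.2 (v i))) +
          f (Function.update v i (dact N y.1 y.2 (v i))) := by
        intro i
        rw [hlin, f.map_update_add]
      rw [Finset.sum_congr rfl fun i _ => h2 i, Finset.sum_add_distrib, hx, hy]
      show _ = (c * (x.2 + y.2)) * f v
      ring
    | smul r x _ hx =>
      have h2 : ∀ i, f (Function.update v i (dact N (r • x).1 (r • x).2 (v i))) =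
          r * f (Function.update v i (dact N x.1 x.2 (v i))) := by
        intro i
        rw [hsm, f.map_update_smul, smul_eq_mul]
      rw [Finset.sum_congr rfl fun i _ => h2 i, ← Finset.mul_sum, hx]
      show _ = (c * (r * x.2)) * f v
      ring

/-- Forms of type `j` (the slot `i` is linear in the component `j i` only) in the twist where Tate
classes live: only the relations between the determinants of the twists of weight zero matter, and
of a degree bounded by the number of slots. -/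
theorem semi_main_tc [CharZero k] [Fintype κ] [DecidableEq κ] (hD : ∀ a, 0 < D a)
    [TopologicalSpace G] [IsTopologicalGroup G] [CompactSpace G] [TotallyDisconnectedSpace G]
    (ρ : ∀ a, G →* Matrix (Fin (D a)) (Fin (D a)) k) (χ : G →* k) {p : ℕ}
    (hp0 : (p : k) ≠ 0) (hp : ‖(p : k)‖ < 1) (hρ : ∀ a, Continuous (ρ a)) (hχ : Continuous χ)
    (hb : Big p ρ) (m : ℕ) (N : κ → ℤ) (j : Fin m → κ) (c : ℤ) (hc : 2 * c = -∑ i, N (j i))
    (hind : ∀ H : Subgroup G, IsOpen (H : Set G) → ∀ t : κ → ℤ,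
      (∀ a, |t a| * D a ≤ (Finset.univ.filter fun i => j i = a).card) →
      (∀ h ∈ H, ∏ a, ((ρ a h).det ^ 2 * χ h ^ (N a * D a)) ^ t a = 1) → ∀ a, t a = 0)
    (H : Subgroup G) (hH : IsOpen (H : Set G))
    (f : MultilinearMap k (fun _ : Fin m => MM k D) k)
    (hj : ∀ v w : Fin m → MM k D, (∀ i, v i (j i) = w i (j i)) → f v = f w)
    (hf : ∀ h ∈ H, ∀ v : Fin m → MM k D,
      f (fun i => gact N (fun a => ρ a h) (fun a => ρ a h⁻¹) (χ h) (v i)) = χ h ^ c * f v) :
    (fun v => f v) ∈ Pairs k D m := by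
  refine semi_main_g hD ρ χ hp0 hp hρ hχ hb m N c f ?_ H hH hf
  intro H' hH' θ hθ t ht hh
  obtain ⟨v, hv⟩ := hθ
  have hθj := fun i => type_of_ne f j hj hv i
  obtain ⟨h1, h2⟩ := type_num N j c hc hθj ht
  refine hind H' hH' t h1 (fun h h' => ?_)
  have hχ0 : χ h ≠ 0 := by
    intro h0
    have h1 : χ h * χ h⁻¹ = 1 := by rw [← map_mul, mul_inv_cancel, map_one]
    rw [h0, zero_mul] at h1
    exact zero_ne_one h1
  have e1 := hh h h'
  have e5 : ∏ a, ((ρ a h).det ^ 2 * χ h ^ (N a * D a)) ^ t a =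
      (∏ a, (ρ a h).det ^ t a) ^ 2 * χ h ^ (∑ a, N a * (D a : ℤ) * t a) := by
    rw [← Finset.prod_pow]
    have e6 : χ h ^ (∑ a, N a * (D a : ℤ) * t a) = ∏ a, χ h ^ (N a * (D a : ℤ) * t a) := by
      have : ∀ s : Finset κ, χ h ^ (∑ a ∈ s, N a * (D a : ℤ) * t a) =
          ∏ a ∈ s, χ h ^ (N a * (D a : ℤ) * t a) := by
        intro s
        induction s using Finset.induction_on with
        | empty => simp
        | insert a s ha ih => rw [Finset.sum_insert ha, Finset.prod_insert ha, zpow_add₀ hχ0, ih]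
      exact this _
    rw [e6, ← Finset.prod_mul_distrib]
    refine Finset.prod_congr rfl fun a _ => ?_
    rw [mul_zpow, ← zpow_natCast ((ρ a h).det) 2, ← zpow_natCast ((ρ a h).det ^ t a) 2,
      ← _root_.zpow_mul, ← _root_.zpow_mul, ← _root_.zpow_mul]
    congr 2
    ring
  rw [e5, e1, ← zpow_natCast (χ h ^ _) 2, ← _root_.zpow_mul, ← zpow_add₀ hχ0]
  have e7 : (c + ∑ i, (if (θ i).2 then N (θ i).1 else 0)) * ((2 : ℕ) : ℤ) +
      ∑ a, N a * (D a : ℤ) * t a = 0 := by
    push_cast
    linarith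
  rw [e7, zpow_zero]

/-- The same with the relations of degree at most `m`. -/
theorem semi_main_t [CharZero k] [Fintype κ] [DecidableEq κ] (hD : ∀ a, 0 < D a)
    [TopologicalSpace G] [IsTopologicalGroup G] [CompactSpace G] [TotallyDisconnectedSpace G]
    (ρ : ∀ a, G →* Matrix (Fin (D a)) (Fin (D a)) k) (χ : G →* k) {p : ℕ}
    (hp0 : (p : k) ≠ 0) (hp : ‖(p : k)‖ < 1) (hρ : ∀ a, Continuous (ρ a)) (hχ : Continuous χ)
    (hb : Big p ρ) (m : ℕ) (N : κ → ℤ) (j : Fin m → κ) (c : ℤ) (hc : 2 * c = -∑ i, N (j i))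
    (hind : ∀ H : Subgroup G, IsOpen (H : Set G) → ∀ t : κ → ℤ, (∀ a, |t a| * D a ≤ m) →
      (∀ h ∈ H, ∏ a, ((ρ a h).det ^ 2 * χ h ^ (N a * D a)) ^ t a = 1) → ∀ a, t a = 0)
    (H : Subgroup G) (hH : IsOpen (H : Set G))
    (f : MultilinearMap k (fun _ : Fin m => MM k D) k)
    (hj : ∀ v w : Fin m → MM k D, (∀ i, v i (j i) = w i (j i)) → f v = f w)
    (hf : ∀ h ∈ H, ∀ v : Fin m → MM k D,
      f (fun i => gact N (fun a => ρ a h) (fun a => ρ a h⁻¹) (χ h) (v i)) = χ h ^ c * f v) :
    (fun v => f v) ∈ Pairs k D m := by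
  refine semi_main_tc hD ρ χ hp0 hp hρ hχ hb m N j c hc (fun H' hH' t ht hh => ?_) H hH f hj hf
  refine hind H' hH' t (fun a => (ht a).trans ?_) hh
  have h1 : (Finset.univ.filter fun i => j i = a).card ≤ m := by
    have := Finset.card_le_univ (Finset.univ.filter fun i => j i = a)
    rwa [Fintype.card_fin] at this
  exact_mod_cast h1

end

end Pool.Agent.NF
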