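import Pool.Agent.Lib_helper9.NF.NFD

/-!
# Semi-invariant multilinear forms are products of pairings: only small relations between the
determinants matter
-/

set_option autoImplicit false
set_option linter.unusedSectionVars false
set_option linter.unusedSimpArgs false

namespace Pool.Agent.NF

open Matrix Pool.Agent.MFT Pool.Agent.OT

section

variable {C : Type*} [Field C] [CharZero C] {κ : Type*} [Fintype κ] [DecidableEq κ] {D : κ → ℕ}

/-- The projection to the coordinate `k` of `V a` and of its dual. -/
def nfdQ (a : κ) (k : Fin (D a)) (w : MM C D) : MM C D :=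
  Pi.single a (Pi.single k ((w a).1 k), Pi.single k ((w a).2 k))

theorem nfdQ_idem (a : κ) (k : Fin (D a)) (w : MM C D) : nfdQ a k (nfdQ a k w) = nfdQ a k w := by
  unfold nfdQ
  rw [Pi.single_eq_same]
  dsimp only
  rw [Pi.single_eq_same, Pi.single_eq_same]

theorem nfdQ_sub (a : κ) (k : Fin (D a)) (w : MM C D) : nfdQ a k (w - nfdQ a k w) = 0 := by
  unfold nfdQ
  simp

theorem nfd_E (N : κ → ℤ) (a : κ) (k : Fin (D a)) (c : κ × Bool) (w : MM C D) :
    nfdPr C D c (dact N (Pi.single a (Matrix.single k k (1 : C))) 0 w) =
      (if c = (a, false) then (1 : C) else if c = (a, true) then -1 else 0) •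
        nfdPr C D c (nfdQ a k w) := by
  have hE1 : ∀ u : Fin (D a) → C, Matrix.single k k (1 : C) *ᵥ u = Pi.single k (u k) := by
    intro u
    rw [Matrix.single_mulVec]
    funext j
    by_cases hj : j = k
    · subst hj; simp
    · simp [Function.update_of_ne hj, Pi.single_eq_of_ne hj]
  refine nfd_ext (fun b => ?_) (fun b => ?_)
  · rw [Pi.smul_apply, Prod.smul_fst, nfdPr_fst, nfdPr_fst, nfd_fst]
    by_cases h : c = (b, false)
    · rw [if_pos h, if_pos h]
      by_cases hb : b = a
      · subst hb
        rw [if_pos h, one_smul, Pi.single_eq_same, hE1]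
        unfold nfdQ
        rw [Pi.single_eq_same]
      · have h1 : ¬ c = (a, false) := by
          rw [h]; intro h'; exact hb (Prod.ext_iff.1 h').1
        have h2 : ¬ c = (a, true) := by
          rw [h]; intro h'; exact hb (Prod.ext_iff.1 h').1
        rw [if_neg h1, if_neg h2, zero_smul, Pi.single_eq_of_ne hb, zero_mulVec]
    · rw [if_neg h, if_neg h, smul_zero]
  · rw [Pi.smul_apply, Prod.smul_snd, nfdPr_snd, nfdPr_snd, nfd_snd]
    by_cases h : c = (b, true)
    · rw [if_pos h, if_pos h]
      by_cases hb : b = a
      · subst hb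
        have h1 : ¬ c = (b, false) := by
          rw [h]; intro h'; exact absurd (Prod.ext_iff.1 h').2 (by simp)
        rw [if_neg h1, if_pos h, Pi.single_eq_same, Matrix.transpose_single, hE1]
        unfold nfdQ
        rw [Pi.single_eq_same]
        simp
      · have h1 : ¬ c = (a, false) := by
          rw [h]; intro h'; exact hb (Prod.ext_iff.1 h').1
        have h2 : ¬ c = (a, true) := by
          rw [h]; intro h'; exact hb (Prod.ext_iff.1 h').1
        rw [if_neg h1, if_neg h2, zero_smul, Pi.single_eq_of_ne hb, transpose_zero, zero_mulVec]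
        simp
    · rw [if_neg h, if_neg h, smul_zero]

end

/-- The semi-invariant multilinear forms are products of pairings as soon as the traces satisfy no
relation with small coefficients. -/
theorem semi_pairings_m {C : Type*} [Field C] [CharZero C] {κ : Type*} [Fintype κ]
    [DecidableEq κ]
    {D : κ → ℕ} (hD : ∀ a, 0 < D a) (N : κ → ℤ)
    (L : Submodule C ((∀ a, Matrix (Fin (D a)) (Fin (D a)) C) × C))
    (hsl : ∀ z : ∀ a, Matrix (Fin (D a)) (Fin (D a)) C, (∀ a, (z a).trace = 0) → (z, 0) ∈ L)
    (m : ℕ)
    (hind : ∀ (t : κ → ℤ) (t' : ℤ), (∀ a, |t a| * D a ≤ m) →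
      (∀ x ∈ L, ∑ a, (t a : C) * (x.1 a).trace = t' * x.2) → ∀ a, t a = 0)
    (c : ℤ) (f : MultilinearMap C (fun _ : Fin m => MM C D) C)
    (hf : ∀ x ∈ L, ∀ v : Fin m → MM C D,
      ∑ i, f (Function.update v i (dact N x.1 x.2 (v i))) = (c * x.2) * f v) :
    (fun v => f v) ∈ Pairs C D m := by
  classical
  let g : (Fin m → κ × Bool) → MultilinearMap C (fun _ : Fin m => MM C D) C :=
    fun θ => f.compLinearMap (fun i => nfdPr C D (θ i))
  have ga : ∀ θ v, g θ v = f (fun i => nfdPr C D (θ i) (v i)) := fun θ v => rfl
  have hsum : (fun v => f v) = ∑ θ : Fin m → κ × Bool, (fun v : Fin m → MM C D => g θ v) := by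
    funext v
    rw [Finset.sum_apply]
    have h1 : (fun i => ∑ b, nfdPr C D b (v i)) = v := by
      funext i
      exact (nfd_dec (C := C) (D := D)).sum_apply (v i)
    conv_lhs => rw [← h1]
    rw [MultilinearMap.map_sum]
    rfl
  rw [hsum]
  refine Submodule.sum_mem _ fun θ _ => ?_
  by_cases h0 : ∀ v, g θ v = 0
  · have : (fun v : Fin m → MM C D => g θ v) = 0 := funext h0
    rw [this]
    exact Submodule.zero_mem _
  push Not at h0
  obtain ⟨v0, hv0⟩ := h0
  let Dop : (∀ a, Matrix (Fin (D a)) (Fin (D a)) C) → C → (Fin m → MM C D) → C :=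
    fun Y ξ v => ∑ i, g θ (Function.update v i (dact N Y ξ (v i)))
  have hDop : ∀ Y ξ v, Dop Y ξ v = ∑ i, g θ (Function.update v i (dact N Y ξ (v i))) :=
    fun _ _ _ => rfl
  have hadd : ∀ Y Y' ξ ξ' v, Dop (fun a => Y a + Y' a) (ξ + ξ') v = Dop Y ξ v + Dop Y' ξ' v := by
    intro Y Y' ξ ξ' v
    rw [hDop, hDop, hDop, ← Finset.sum_add_distrib]
    refine Finset.sum_congr rfl fun i _ => ?_
    rw [nfd_add, (g θ).map_update_add]
  have hL : ∀ x ∈ L, ∀ v, Dop x.1 x.2 v = (c * x.2) * g θ v := by
    intro x hx v
    rw [hDop, ga, ← hf x hx]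
    refine Finset.sum_congr rfl fun i _ => ?_
    rw [ga]
    congr 1
    funext j
    by_cases hj : j = i
    · subst hj
      rw [Function.update_self, Function.update_self, nfd_comm]
    · rw [Function.update_of_ne hj, Function.update_of_ne hj]
  let n : κ → ℤ := fun a => ∑ i, if (θ i).1 = a then (if (θ i).2 then -1 else 1) else 0
  let J : ℤ := ∑ i, if (θ i).2 then N (θ i).1 else 0
  have hscal : ∀ (t : κ → C) (ξ : C) v, Dop (fun a => t a • 1) ξ v =
      (∑ a, (n a : C) * t a - (J : C) * ξ) * g θ v := by
    intro t ξ v
    have h1 : ∀ i, g θ (Function.update v i (dact N (fun a => t a • 1) ξ (v i))) =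
        (if (θ i).2 then -((N (θ i).1 : C) * ξ + t (θ i).1) else t (θ i).1) * g θ v := by
      intro i
      rw [ga, ga]
      have h2 : (fun j => nfdPr C D (θ j) (Function.update v i
          (dact N (fun a => t a • (1 : Matrix (Fin (D a)) (Fin (D a)) C)) ξ (v i)) j)) =
          Function.update (fun j => nfdPr C D (θ j) (v j)) i
            ((if (θ i).2 then -((N (θ i).1 : C) * ξ + t (θ i).1) else t (θ i).1) •
              nfdPr C D (θ i) (v i)) := by
        funext j
        by_cases hj : j = i
        · subst hj
          rw [Function.update_self, Function.update_self, nfd_scal]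
        · rw [Function.update_of_ne hj, Function.update_of_ne hj]
      rw [h2, f.map_update_smul, smul_eq_mul]
      congr 2
      exact Function.update_eq_self i _
    rw [hDop, Finset.sum_congr rfl fun i _ => h1 i, ← Finset.sum_mul]
    congr 1
    have h3 : ∑ a, (n a : C) * t a = ∑ i, (if (θ i).2 then -1 else 1) * t (θ i).1 := by
      have : ∀ a, (n a : C) * t a =
          ∑ i, if (θ i).1 = a then (if (θ i).2 then -1 else 1) * t a else 0 := by
        intro a
        simp only [n]
        push_cast
        rw [Finset.sum_mul]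
        refine Finset.sum_congr rfl fun i _ => ?_
        split_ifs <;> simp
      rw [Finset.sum_congr rfl fun a _ => this a, Finset.sum_comm]
      refine Finset.sum_congr rfl fun i _ => ?_
      rw [Finset.sum_ite_eq, if_pos (Finset.mem_univ _)]
    have h4 : (J : C) * ξ = ∑ i, (if (θ i).2 then (N (θ i).1 : C) * ξ else 0) := by
      simp only [J]
      push_cast
      rw [Finset.sum_mul]
      refine Finset.sum_congr rfl fun i _ => ?_
      split_ifs <;> simp
    rw [h3, h4, ← Finset.sum_sub_distrib]
    refine Finset.sum_congr rfl fun i _ => ?_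
    split_ifs
    · ring
    · ring
  have hDC : ∀ a, (D a : C) ≠ 0 := fun a => Nat.cast_ne_zero.2 (hD a).ne'
  -- the general element
  have hgen : ∀ (Y : ∀ a, Matrix (Fin (D a)) (Fin (D a)) C) (ξ : C) v, Dop Y ξ v =
      (∑ a, (n a : C) * ((Y a).trace / D a) - (J : C) * ξ) * g θ v := by
    intro Y ξ v
    let Y0 : ∀ a, Matrix (Fin (D a)) (Fin (D a)) C := fun a => Y a - ((Y a).trace / D a) • 1
    have h1 : Y = fun a => Y0 a + ((Y a).trace / D a) • 1 := by
      funext a
      simp only [Y0]
      abel
    have h2 : ∀ a, (Y0 a).trace = 0 := by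
      intro a
      simp only [Y0]
      rw [trace_sub, trace_smul, trace_one, Fintype.card_fin, smul_eq_mul,
        div_mul_cancel₀ _ (hDC a), sub_self]
    have h3 : Dop Y0 0 v = 0 := by
      rw [hL _ (hsl Y0 h2) v]
      simp
    have h4 := hadd Y0 (fun a => ((Y a).trace / D a) • 1) 0 ξ v
    rw [zero_add, ← h1, h3, zero_add] at h4
    rw [h4, hscal]
  -- the net number of slots is divisible by the dimension
  have hdvd : ∀ a, (D a : ℤ) ∣ n a := by
    intro a
    let k : Fin (D a) := ⟨0, hD a⟩
    let Q : MM C D → MM C D := nfdQ a k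
    have h1 : g θ v0 = ∑ s : Finset (Fin m),
        g θ (s.piecewise (fun i => Q (v0 i)) (fun i => v0 i - Q (v0 i))) := by
      rw [← MultilinearMap.map_add_univ]
      congr 1
      funext i
      simp
    obtain ⟨s, hs⟩ : ∃ s : Finset (Fin m),
        g θ (s.piecewise (fun i => Q (v0 i)) (fun i => v0 i - Q (v0 i))) ≠ 0 := by
      by_contra hcon
      push Not at hcon
      exact hv0 (h1.trans (Finset.sum_eq_zero fun s _ => hcon s))
    set v : Fin m → MM C D := s.piecewise (fun i => Q (v0 i)) (fun i => v0 i - Q (v0 i)) with hv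
    have hQv : ∀ i, Q (v i) = if i ∈ s then v i else 0 := by
      intro i
      by_cases hi : i ∈ s
      · rw [if_pos hi, hv, Finset.piecewise_eq_of_mem _ _ _ hi]
        exact nfdQ_idem a k _
      · rw [if_neg hi, hv, Finset.piecewise_eq_of_notMem _ _ _ hi]
        exact nfdQ_sub a k _
    let σ : Fin m → ℤ := fun i => if θ i = (a, false) then 1 else if θ i = (a, true) then -1 else 0
    have h2 : Dop (Pi.single a (Matrix.single k k (1 : C))) 0 v =
        ((∑ i, if i ∈ s then σ i else 0 : ℤ) : C) * g θ v := by
      rw [hDop]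
      push_cast
      rw [Finset.sum_mul]
      refine Finset.sum_congr rfl fun i _ => ?_
      have h3 : g θ (Function.update v i (dact N (Pi.single a (Matrix.single k k (1 : C))) 0
          (v i))) = ((σ i : ℤ) : C) * g θ (Function.update v i (Q (v i))) := by
        rw [ga, ga]
        have h4 : (fun j => nfdPr C D (θ j) (Function.update v i
            (dact N (Pi.single a (Matrix.single k k (1 : C))) 0 (v i)) j)) =
            Function.update (fun j => nfdPr C D (θ j) (Function.update v i (Q (v i)) j)) i
              (((σ i : ℤ) : C) • nfdPr C D (θ i) (Q (v i))) := by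
          funext j
          by_cases hj : j = i
          · subst hj
            rw [Function.update_self, Function.update_self, nfd_E]
            congr 1
            simp only [σ]
            split_ifs <;> simp
          · rw [Function.update_of_ne hj, Function.update_of_ne hj, Function.update_of_ne hj]
        rw [h4, f.map_update_smul, smul_eq_mul]
        congr 2
        have h5 : nfdPr C D (θ i) (Q (v i)) =
            (fun j => nfdPr C D (θ j) (Function.update v i (Q (v i)) j)) i := by
          show _ = nfdPr C D (θ i) (Function.update v i (Q (v i)) i)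
          rw [Function.update_self]
        rw [h5, Function.update_eq_self]
      rw [h3, hQv]
      by_cases hi : i ∈ s
      · rw [if_pos hi, if_pos hi, Function.update_eq_self]
      · rw [if_neg hi, if_neg hi, (g θ).map_update_zero]
        simp
    have h3 := hgen (Pi.single a (Matrix.single k k (1 : C))) 0 v
    have h4 : ∑ b, (n b : C) * ((Pi.single (M := fun b => Matrix (Fin (D b)) (Fin (D b)) C) a
        (Matrix.single k k (1 : C)) b).trace / D b) = (n a : C) * (1 / D a) := by
      rw [Finset.sum_eq_single a]
      · rw [Pi.single_eq_same, Matrix.trace_single_eq_same]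
      · intro b _ hb
        rw [Pi.single_eq_of_ne hb]
        simp
      · intro h
        exact absurd (Finset.mem_univ a) h
    rw [h2, h4] at h3
    have h5 := mul_right_cancel₀ hs h3
    have h6 : ((n a : ℤ) : C) = (((D a : ℤ) * ∑ i, if i ∈ s then σ i else 0 : ℤ) : C) := by
      push_cast
      push_cast at h5
      rw [h5]
      field_simp [hDC a]
      ring
    exact ⟨_, Int.cast_injective h6⟩
  choose t ht using hdvd
  have hn : ∀ a, n a = 0 := by
    have h1 := hind t (c + J) (fun a => by
        have h2 : |t a| * D a = |n a| := by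
          rw [ht a, abs_mul, Nat.abs_cast, mul_comm]
        rw [h2]
        calc |n a| ≤ ∑ i : Fin m, |if (θ i).1 = a then (if (θ i).2 then (-1 : ℤ) else 1) else 0| :=
              Finset.abs_sum_le_sum_abs _ _
          _ ≤ ∑ i : Fin m, (1 : ℤ) := by
              refine Finset.sum_le_sum fun i _ => ?_
              split_ifs <;> simp
          _ = m := by simp) (by
        intro x hx
        have h2 := hL x hx v0
        rw [hgen] at h2
        have h3 := mul_right_cancel₀ hv0 h2
        have h5 : ∀ a, (t a : C) * (x.1 a).trace = (n a : C) * ((x.1 a).trace / D a) := by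
          intro a
          rw [ht a]
          push_cast
          field_simp [hDC a]
        rw [Finset.sum_congr rfl fun a _ => h5 a]
        push_cast
        linear_combination h3)
    intro a
    rw [ht a, h1 a, mul_zero]
  apply nfd_pairs
  refine mfft (nfd_dec (C := C) (D := D)) _ Finset.univ rfl _ ⟨?_, ?_, ?_⟩ ?_
  · intro a _ v x y
    exact (g θ).map_update_add v a x y
  · intro a _ v r x
    rw [(g θ).map_update_smul, smul_eq_mul]
  · intro a ha
    exact absurd (Finset.mem_univ a) ha
  · intro y hy hyc v
    obtain ⟨Y, hY⟩ := nfd_sk N y hy hyc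
    have h1 : ∑ a, g θ (Function.update v a (y (v a))) = Dop Y 0 v := by
      rw [hDop]
      refine Finset.sum_congr rfl fun i _ => ?_
      rw [hY]
    rw [h1, hgen]
    simp [hn]

end Pool.Agent.NF
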